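import Mathlib
import Pool.Agent.Helper459_costas.Defs
import Pool.Agent.Helper459_costas.Assemble
import Pool.Agent.Helper459_costas.Half

/-!
# Maximal cross-correlation of Welch and Golomb Costas arrays for primes `p ≡ 1` modulo `4`

For every prime `p > 5` with `p ≡ 1` modulo `4` (these are exactly the primes that are not safe and
have `t(p) = 2`), the maximal cross-correlation of two Welch permutations built from different
primitive roots is `(p - 1) / 2`, and the maximal cross-correlation of two distinct Golomb
permutations over the field with `p` elements is `(p - 1) / 2 - 1`.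
-/

namespace Pool.Agent.Results.MP_c24e09_co.OneModFour

open Pool.Agent.Helper459_costas

/-- The conjecture for all primes `p ≡ 1` modulo `4`, `p > 5`. -/
theorem result (p : ℕ) (hp : p.Prime) (h4 : p ≡ 1 [MOD 4]) (h5 : 5 < p) :
    IsGreatest (welchValues p) ((p - 1) / 2) ∧ IsGreatest (golombValues p) ((p - 1) / 2 - 1) := by
  have : Fact p.Prime := ⟨hp⟩
  have h4' : p % 4 = 1 := h4
  have h13 : 13 ≤ p := by
    by_contra hcon
    have h : p = 9 := by omega
    rw [h] at hp
    revert hp
    norm_num
  refine assemble2 p 2 ⟨⟨Nat.prime_two, h4⟩, fun q hq => hq.1.two_le⟩ (by omega) ?_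
  intro φ ψ hφ hψ A B hA hB h1 h2
  exact good_all h13 h4' φ ψ hφ hψ h1 h2 A B hA hB

end Pool.Agent.Results.MP_c24e09_co.OneModFour
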