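import Mathlib
import Pool.Agent.Helper459_costas.Defs
import Pool.Agent.Helper459_costas.Assemble

/-!
# Maximal cross-correlation of Welch and Golomb Costas arrays

For every prime `p` whose number `t = t(p)` (the least prime with `p ≡ 1` modulo `2 t`) satisfies
`2 ^ 267 * t ^ 246 ≤ p`, the maximal cross-correlation of two Welch permutations built from
different primitive roots is `(p - 1) / t`, and the maximal cross-correlation of two distinct Golomb
permutations over the field with `p` elements is `(p - 1) / t - 1`. (Such a prime is never safe.)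
-/

namespace Pool.Agent.Results.MP_c24e09_co.SmallFactor

open Pool.Agent.Helper459_costas

/-- The conjecture for all primes `p ≥ 2 ^ 267 * t(p) ^ 246`. -/
theorem result (p t : ℕ) (hp : p.Prime) (ht : IsLeast {q : ℕ | q.Prime ∧ p ≡ 1 [MOD 2 * q]} t)
    (hbig : 2 ^ 267 * t ^ 246 ≤ p) :
    IsGreatest (welchValues p) ((p - 1) / t) ∧ IsGreatest (golombValues p) ((p - 1) / t - 1) := by
  haveI : Fact p.Prime := ⟨hp⟩
  have ht2 : 2 ≤ t := ht.1.1.two_le
  have hp2 := hp.two_le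
  have h267 : (2 : ℕ) ^ 267 = 2 * 4 ^ 133 := by
    have : (4 : ℕ) ^ 133 = 2 ^ 266 := by
      rw [show (4 : ℕ) = 2 ^ 2 by norm_num, ← pow_mul]
    rw [this, ← pow_succ']
  have hpos : 0 < 4 ^ 133 * t ^ 246 := by positivity
  have hbig1 : 4 ^ 133 * t ^ 246 < p - 1 := by
    rw [h267] at hbig
    have h1 : 2 ≤ 4 ^ 133 * t ^ 246 := by
      have h2 : 1 ≤ t ^ 246 := Nat.one_le_pow _ _ (by omega)
      calc 2 ≤ 4 ^ 133 * 1 := by norm_num
        _ ≤ 4 ^ 133 * t ^ 246 := Nat.mul_le_mul_left _ h2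
    have h3 : 2 * 4 ^ 133 * t ^ 246 = 2 * (4 ^ 133 * t ^ 246) := by ring
    omega
  have hbig2 : 4 * t ^ 2 < p - 1 := by
    refine lt_of_le_of_lt ?_ hbig1
    have h1 : t ^ 2 ≤ t ^ 246 := Nat.pow_le_pow_right (by omega) (by norm_num)
    have h2 : (4 : ℕ) ≤ 4 ^ 133 := by norm_num
    exact Nat.mul_le_mul h2 h1
  have hp3 : p ≠ 2 := by
    have : 0 < 4 * t ^ 2 := by positivity
    omega
  have hmin : ∀ q : ℕ, q.Prime → 2 * q ∣ p - 1 → t ≤ q := by
    intro q hq hqd
    exact ht.2 ⟨hq, ((Nat.modEq_iff_dvd' (by omega)).2 hqd).symm⟩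
  refine assemble p t ht hbig2 ?_
  intro φ ψ hφ hψ A B hA hB h1 h2
  refine core φ ψ hφ hψ hp3 A B hA hB h1 h2 t ht2 hmin ?_
  exact_mod_cast hbig1

end Pool.Agent.Results.MP_c24e09_co.SmallFactor
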